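import Pool.Agent.W546.ST.Defs
import Pool.Agent.Helper82.OS.stein1

set_option autoImplicit false
open Matrix MeasureTheory Set Metric Filter Topology
open scoped ENNReal Nat

namespace Pool.Agent.W191.ST
open Pool.Agent.Helper82.OS Pool.Agent.W546.ST

/-- the error term of the integration by parts -/
noncomputable def Zt (u b t : ℝ) : ℝ :=
  t ^ 2 * Real.sqrt (t ^ 2 + b) / Real.sqrt (t ^ 2 + b + u) * (t ^ 2 + b) ^ 1

noncomputable def ZZ (u b : ℝ) : ℝ := ∫ t : ℝ, Zt u b t * st1g_stein1x t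

theorem ZZ_int (u b : ℝ) (hu : 0 ≤ u) (hb : 0 < b) :
    Integrable (fun t : ℝ => Zt u b t * st1g_stein1x t) := by
  have := st1_int1_stein1x u b hu hb 1
  exact this

theorem ZZ_nonneg (u b : ℝ) (hb : 0 < b) : 0 ≤ ZZ u b := by
  refine integral_nonneg fun t => ?_
  have hg : 0 ≤ st1g_stein1x t := by unfold st1g_stein1x; positivity
  have h0 : 0 ≤ Zt u b t := by unfold Zt; positivity
  exact mul_nonneg h0 hg

theorem stein_eq (u b : ℝ) (hu : 0 ≤ u) (hb : 0 < b) :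
    st1P_stein1x u b 2 = (4 + b) * st1P_stein1x u b 1 - 3 * b * st1P_stein1x u b 0 + ZZ u b := by
  have hH := fun k => st1_intH_stein1x u b hu hb.le k
  have hE := ZZ_int u b hu hb
  have hab : Integrable (fun t : ℝ => (4 + b) * (st1H_stein1x u 1 (t ^ 2 + b) * st1g_stein1x t)
      - 3 * b * (st1H_stein1x u 0 (t ^ 2 + b) * st1g_stein1x t)) :=
    ((hH 1).const_mul _).sub ((hH 0).const_mul _)
  have hc : Integrable (fun t : ℝ => (4 + b) * (st1H_stein1x u 1 (t ^ 2 + b) * st1g_stein1x t)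
      - 3 * b * (st1H_stein1x u 0 (t ^ 2 + b) * st1g_stein1x t)
      - st1H_stein1x u 2 (t ^ 2 + b) * st1g_stein1x t) :=
    hab.sub (hH 2)
  have hDeq : st1D_stein1x u b (0 + 1) = fun t : ℝ =>
      ((4 + b) * (st1H_stein1x u 1 (t ^ 2 + b) * st1g_stein1x t)
      - 3 * b * (st1H_stein1x u 0 (t ^ 2 + b) * st1g_stein1x t)
      - st1H_stein1x u 2 (t ^ 2 + b) * st1g_stein1x t) + Zt u b t * st1g_stein1x t := by
    funext t
    rw [st1D_eq_stein1x u b hu hb]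
    simp only [Zt, Nat.cast_zero, zero_add]
    ring
  have hD : Integrable (st1D_stein1x u b (0 + 1)) := by
    rw [hDeq]
    exact hc.add hE
  have h0 : ∫ t, st1D_stein1x u b (0 + 1) t = 0 :=
    integral_eq_zero_of_hasDerivAt_of_integrable
      (fun t => st1_hasDeriv_stein1x u b hu hb (0 + 1) t) hD (st1_intt_stein1x u b hu hb (0 + 1))
  rw [hDeq, integral_add hc hE, integral_sub hab (hH 2),
    integral_sub ((hH 1).const_mul _) ((hH 0).const_mul _), integral_const_mul,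
    integral_const_mul] at h0
  unfold st1P_stein1x ZZ
  linarith

/-- the pointwise step -/
theorem pt6 (u : ℝ) (hu : 0 ≤ u) (s x : ℝ) (hs : 0 ≤ s) (hx : 0 < x) (hsx : s ≤ x) :
    st1H_stein1x u 2 x ≤ st1H_stein1x u 2 s
      + (x - s) * (1 / 2 * (x * (Real.sqrt x / Real.sqrt (x + u)) * x)
        + 5 / 2 * st1H_stein1x u 1 x) := by
  unfold st1H_stein1x
  obtain ⟨X, hX0, hX⟩ : ∃ X : ℝ, 0 < X ∧ Real.sqrt x = X := ⟨_, Real.sqrt_pos.2 hx, rfl⟩
  obtain ⟨S, hS0, hS⟩ : ∃ S : ℝ, 0 ≤ S ∧ Real.sqrt s = S := ⟨_, Real.sqrt_nonneg _, rfl⟩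
  obtain ⟨A, hA0, hA⟩ : ∃ A : ℝ, 0 < A ∧ Real.sqrt (x + u) = A :=
    ⟨_, Real.sqrt_pos.2 (by positivity), rfl⟩
  obtain ⟨B, hB0, hB⟩ : ∃ B : ℝ, 0 ≤ B ∧ Real.sqrt (s + u) = B := ⟨_, Real.sqrt_nonneg _, rfl⟩
  have hxx : x = X ^ 2 := by rw [← hX, Real.sq_sqrt hx.le]
  have hss : s = S ^ 2 := by rw [← hS, Real.sq_sqrt hs]
  have hAA : A ^ 2 = X ^ 2 + u := by rw [← hA, Real.sq_sqrt (by positivity), ← hxx]
  have hBB : B ^ 2 = S ^ 2 + u := by rw [← hB, Real.sq_sqrt (by positivity), ← hss]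
  rw [hX, hS, hA, hB]
  have hSX : S ≤ X := by rw [← hS, ← hX]; exact Real.sqrt_le_sqrt hsx
  have hd : 0 ≤ X ^ 2 - S ^ 2 := by nlinarith
  set d := X ^ 2 - S ^ 2 with hdd
  have hABd : A ^ 2 - B ^ 2 = d := by rw [hAA, hBB, hdd]; ring
  have hBA : B ≤ A := by nlinarith
  -- A^2 * (A B) ≥ A^2 (A^2 - d/2) - d^2/2
  have h1 : A ^ 2 * (A ^ 2 - d / 2) - d ^ 2 / 2 ≤ A ^ 2 * (A * B) := by
    have e : A ^ 2 - d / 2 - A * B = (A - B) ^ 2 / 2 := by rw [← hABd]; ring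
    have e2 : d = (A - B) * (A + B) := by rw [← hABd]; ring
    have h3 : A ^ 2 * (A - B) ^ 2 ≤ d ^ 2 := by
      rw [e2, mul_pow]
      nlinarith [mul_nonneg (sq_nonneg (A - B)) (mul_nonneg hA0.le hB0),
        mul_nonneg (sq_nonneg (A - B)) (sq_nonneg B)]
    nlinarith
  have hS2A : S ^ 2 ≤ A ^ 2 := by nlinarith
  have h2 : S ^ 3 * d ≤ X ^ 5 - S ^ 5 := by
    have : S ^ 3 * X ^ 2 ≤ X ^ 5 := by
      have h := pow_le_pow_left₀ hS0 hSX 3
      calc S ^ 3 * X ^ 2 ≤ X ^ 3 * X ^ 2 := by gcongr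
        _ = X ^ 5 := by ring
    rw [hdd]; nlinarith
  have h4 : 0 ≤ 3 / 2 * X ^ 5 - 5 / 2 * X ^ 3 * S ^ 2 + S ^ 5 := by
    have : 3 / 2 * X ^ 5 - 5 / 2 * X ^ 3 * S ^ 2 + S ^ 5
        = (X - S) ^ 2 * (3 / 2 * X ^ 3 + 3 * X ^ 2 * S + 2 * X * S ^ 2 + S ^ 3) := by ring
    rw [this]; positivity
  -- main polynomial inequality multiplied by A^2
  have h5 : A ^ 2 * (2 * A ^ 2 * X ^ 5 - 2 * (A * B) * S ^ 5)
      ≤ A ^ 2 * (d * (X ^ 5 + 5 * A ^ 2 * X ^ 3)) := by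
    have h6 : A ^ 2 * (A ^ 2 - d / 2) * S ^ 5 - d ^ 2 / 2 * S ^ 5 ≤ A ^ 2 * (A * B) * S ^ 5 := by
      have := mul_le_mul_of_nonneg_right h1 (pow_nonneg hS0 5)
      nlinarith
    have h7 : d ^ 2 * S ^ 5 ≤ A ^ 2 * (d * (X ^ 5 - S ^ 5)) := by
      calc d ^ 2 * S ^ 5 = S ^ 2 * (d * (S ^ 3 * d)) := by ring
        _ ≤ A ^ 2 * (d * (S ^ 3 * d)) := by gcongr
        _ ≤ A ^ 2 * (d * (X ^ 5 - S ^ 5)) := by gcongr
    have h8 : 0 ≤ A ^ 2 * A ^ 2 * (3 / 2 * X ^ 5 - 5 / 2 * X ^ 3 * S ^ 2 + S ^ 5) := by positivity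
    have h9 : A ^ 2 * (d * (X ^ 5 + 5 * A ^ 2 * X ^ 3))
        - A ^ 2 * (2 * A ^ 2 * X ^ 5) + 2 * (A ^ 2 * (A ^ 2 - d / 2) * S ^ 5 - d ^ 2 / 2 * S ^ 5)
        = A ^ 2 * (d * (X ^ 5 - S ^ 5)) - d ^ 2 * S ^ 5
          + 2 * (A ^ 2 * A ^ 2 * (3 / 2 * X ^ 5 - 5 / 2 * X ^ 3 * S ^ 2 + S ^ 5)) := by
      rw [hdd]; ring
    nlinarith
  have h10 : 2 * A ^ 2 * X ^ 5 - 2 * (A * B) * S ^ 5 ≤ d * (X ^ 5 + 5 * A ^ 2 * X ^ 3) :=
    le_of_mul_le_mul_left h5 (by positivity)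
  rw [hxx, hss]
  have h11 : (B * S * (S ^ 2) ^ 2 + (X ^ 2 - S ^ 2) * (1 / 2 * (X ^ 2 * (X / A) * X ^ 2)
      + 5 / 2 * (A * X * (X ^ 2) ^ 1)) - A * X * (X ^ 2) ^ 2) * (2 * A)
      = d * (X ^ 5 + 5 * A ^ 2 * X ^ 3) - (2 * A ^ 2 * X ^ 5 - 2 * (A * B) * S ^ 5) := by
    rw [hdd]; field_simp; ring
  have h12 : 0 ≤ (B * S * (S ^ 2) ^ 2 + (X ^ 2 - S ^ 2) * (1 / 2 * (X ^ 2 * (X / A) * X ^ 2)
      + 5 / 2 * (A * X * (X ^ 2) ^ 1)) - A * X * (X ^ 2) ^ 2) := by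
    by_contra hneg
    push Not at hneg
    have := mul_neg_of_neg_of_pos hneg (by positivity : 0 < 2 * A)
    rw [h11] at this
    linarith
  linarith

theorem pt6' (u b t : ℝ) (hu : 0 ≤ u) (hb : 0 < b) :
    (t ^ 2 + b) * (Real.sqrt (t ^ 2 + b) / Real.sqrt (t ^ 2 + b + u)) * (t ^ 2 + b)
      ≤ Zt u b t + b * st1H_stein1x u 0 (t ^ 2 + b) := by
  unfold Zt st1H_stein1x
  have hs : 0 < t ^ 2 + b := by positivity
  have hsu : 0 < t ^ 2 + b + u := by positivity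
  obtain ⟨x, hx0, hx⟩ : ∃ x : ℝ, 0 < x ∧ Real.sqrt (t ^ 2 + b) = x := ⟨_, Real.sqrt_pos.2 hs, rfl⟩
  obtain ⟨y, hy0, hy⟩ : ∃ y : ℝ, 0 < y ∧ Real.sqrt (t ^ 2 + b + u) = y :=
    ⟨_, Real.sqrt_pos.2 hsu, rfl⟩
  have hxx : t ^ 2 + b = x ^ 2 := by rw [← hx, Real.sq_sqrt hs.le]
  have hyy : t ^ 2 + b + u = y ^ 2 := by rw [← hy, Real.sq_sqrt hsu.le]
  rw [hx, hy]
  have h1 : b * (x / y) * (t ^ 2 + b) ≤ b * (y * x) := by
    have : x / y * (t ^ 2 + b) ≤ y * x := by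
      rw [div_mul_eq_mul_div, div_le_iff₀ hy0]
      nlinarith
    calc b * (x / y) * (t ^ 2 + b) = b * (x / y * (t ^ 2 + b)) := by ring
      _ ≤ _ := by gcongr
  have e : (t ^ 2 + b) * (x / y) * (t ^ 2 + b)
      = t ^ 2 * x / y * (t ^ 2 + b) ^ 1 + b * (x / y) * (t ^ 2 + b) := by ring
  rw [e]
  have e2 : b * (y * x * (t ^ 2 + b) ^ 0) = b * (y * x) := by simp
  rw [e2]
  linarith

theorem key6 (u b : ℝ) (hu : 0 ≤ u) (hb : 0 < b) :
    1 / 2 * (ZZ u b + b * st1P_stein1x u b 0) + 5 / 2 * st1P_stein1x u b 1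
      ≤ 79 / 100 * st1P_stein1x u b 2 := by
  rw [stein_eq u b hu hb]
  have hZ := ZZ_nonneg u b hb
  have h1 := st1_stein0_stein1x u b hu hb
  have h0 := st1P_nonneg_stein1x u b hb.le 0
  have h2 : (66 / 100 + 79 / 100 * b) * ((1 + b) * st1P_stein1x u b 0)
      ≤ (66 / 100 + 79 / 100 * b) * st1P_stein1x u b 1 :=
    mul_le_mul_of_nonneg_left h1 (by positivity)
  have h3 : 0 ≤ (66 / 100 - 142 / 100 * b + 79 / 100 * b ^ 2) * st1P_stein1x u b 0 := by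
    refine mul_nonneg ?_ h0
    nlinarith [sq_nonneg (b - 71 / 79)]
  nlinarith

theorem step6 (u b h : ℝ) (hu : 0 ≤ u) (hb : 0 ≤ b) (hh : 0 < h) :
    (1 - 79 / 100 * h) * st1P_stein1x u (b + h) 2 ≤ st1P_stein1x u b 2 := by
  have hbh : 0 < b + h := by linarith
  have hk := key6 u (b + h) hu hbh
  have h1 : st1P_stein1x u (b + h) 2 ≤ st1P_stein1x u b 2
      + h * (1 / 2 * (ZZ u (b + h) + (b + h) * st1P_stein1x u (b + h) 0)
        + 5 / 2 * st1P_stein1x u (b + h) 1) := by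
    have i2 := st1_intH_stein1x u b hu hb 2
    have iZ := ZZ_int u (b + h) hu hbh
    have i0 := st1_intH_stein1x u (b + h) hu hbh.le 0
    have i1 := st1_intH_stein1x u (b + h) hu hbh.le 1
    have iA0 : Integrable (fun t : ℝ => Zt u (b + h) t * st1g_stein1x t
        + (b + h) * (st1H_stein1x u 0 (t ^ 2 + (b + h)) * st1g_stein1x t)) :=
      iZ.add (i0.const_mul (b + h))
    have iA : Integrable (fun t : ℝ => 1 / 2 * (Zt u (b + h) t * st1g_stein1x t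
        + (b + h) * (st1H_stein1x u 0 (t ^ 2 + (b + h)) * st1g_stein1x t))) :=
      iA0.const_mul (1 / 2)
    have iB : Integrable (fun t : ℝ =>
        5 / 2 * (st1H_stein1x u 1 (t ^ 2 + (b + h)) * st1g_stein1x t)) := i1.const_mul (5 / 2)
    have iAB : Integrable (fun t : ℝ => 1 / 2 * (Zt u (b + h) t * st1g_stein1x t
        + (b + h) * (st1H_stein1x u 0 (t ^ 2 + (b + h)) * st1g_stein1x t))
        + 5 / 2 * (st1H_stein1x u 1 (t ^ 2 + (b + h)) * st1g_stein1x t)) := iA.add iB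
    have iC : Integrable (fun t : ℝ => h * (1 / 2 * (Zt u (b + h) t * st1g_stein1x t
        + (b + h) * (st1H_stein1x u 0 (t ^ 2 + (b + h)) * st1g_stein1x t))
        + 5 / 2 * (st1H_stein1x u 1 (t ^ 2 + (b + h)) * st1g_stein1x t))) := iAB.const_mul h
    have e : st1P_stein1x u b 2
      + h * (1 / 2 * (ZZ u (b + h) + (b + h) * st1P_stein1x u (b + h) 0)
        + 5 / 2 * st1P_stein1x u (b + h) 1)
        = ∫ t : ℝ, (st1H_stein1x u 2 (t ^ 2 + b) * st1g_stein1x t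
          + h * (1 / 2 * (Zt u (b + h) t * st1g_stein1x t
            + (b + h) * (st1H_stein1x u 0 (t ^ 2 + (b + h)) * st1g_stein1x t))
            + 5 / 2 * (st1H_stein1x u 1 (t ^ 2 + (b + h)) * st1g_stein1x t))) := by
      rw [integral_add i2 iC, integral_const_mul, integral_add iA iB, integral_const_mul,
        integral_const_mul, integral_add iZ (i0.const_mul (b + h)), integral_const_mul]
      rfl
    rw [e]
    unfold st1P_stein1x
    refine integral_mono (st1_intH_stein1x u (b + h) hu hbh.le _) (i2.add iC) fun t => ?_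
    have hg : 0 ≤ st1g_stein1x t := by unfold st1g_stein1x; positivity
    have h2 := pt6 u hu (t ^ 2 + b) (t ^ 2 + (b + h)) (by positivity) (by positivity) (by linarith)
    have h3 := pt6' u (b + h) t hu hbh
    have e3 : t ^ 2 + (b + h) - (t ^ 2 + b) = h := by ring
    rw [e3] at h2
    have h4 : st1H_stein1x u 2 (t ^ 2 + (b + h)) ≤ st1H_stein1x u 2 (t ^ 2 + b)
        + h * (1 / 2 * (Zt u (b + h) t + (b + h) * st1H_stein1x u 0 (t ^ 2 + (b + h)))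
          + 5 / 2 * st1H_stein1x u 1 (t ^ 2 + (b + h))) := by
      refine h2.trans ?_
      gcongr
    have h5 := mul_le_mul_of_nonneg_right h4 hg
    calc _ ≤ _ := h5
      _ = _ := by ring
  have h2 := mul_le_mul_of_nonneg_left hk hh.le
  nlinarith

theorem iter6 (u b : ℝ) (hu : 0 ≤ u) (hb : 0 < b) (n : ℕ) (hn : b < n) (k : ℕ) :
    (1 - 79 / 100 * (b / n)) ^ k * st1P_stein1x u (k * (b / n)) 2 ≤ st1P_stein1x u 0 2 := by
  have hn0 : (0:ℝ) < n := hb.trans hn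
  have hbn : 0 < b / n := by positivity
  have hbn1 : b / n < 1 := by rwa [div_lt_one hn0]
  induction k with
  | zero => simp
  | succ k ih =>
    refine le_trans ?_ ih
    have := step6 u (k * (b / n)) (b / n) hu (by positivity) hbn
    have e : ((k + 1 : ℕ) : ℝ) * (b / n) = k * (b / n) + b / n := by push_cast; ring
    rw [e, pow_succ, mul_assoc]
    exact mul_le_mul_of_nonneg_left this (pow_nonneg (by linarith) _)

theorem main6 (u b : ℝ) (hu : 0 ≤ u) (hb : 0 ≤ b) :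
    st1P_stein1x u b 2 ≤ Real.exp (79 / 100 * b) * st1P_stein1x u 0 2 := by
  rcases hb.eq_or_lt with rfl | hb
  · simp
  have ht : Tendsto (fun n : ℕ => (1 - 79 / 100 * (b / n)) ^ n * st1P_stein1x u b 2) atTop
      (𝓝 (Real.exp (-(79 / 100 * b)) * st1P_stein1x u b 2)) := by
    have := Real.tendsto_one_add_div_pow_exp (-(79 / 100 * b))
    refine Tendsto.mul_const _ ?_
    refine this.congr fun n => ?_
    rw [neg_div]; ring
  have hle : Real.exp (-(79 / 100 * b)) * st1P_stein1x u b 2 ≤ st1P_stein1x u 0 2 := by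
    refine le_of_tendsto ht ?_
    obtain ⟨N, hN⟩ := exists_nat_gt b
    filter_upwards [eventually_ge_atTop N] with n hn
    have hbn : b < n := hN.trans_le (by exact_mod_cast hn)
    have hn0 : (n:ℝ) ≠ 0 := (hb.trans hbn).ne'
    have := iter6 u b hu hb n hbn n
    have e : (n:ℝ) * (b / n) = b := by field_simp
    rwa [e] at this
  calc st1P_stein1x u b 2
      = Real.exp (79 / 100 * b) * (Real.exp (-(79 / 100 * b)) * st1P_stein1x u b 2) := by
        rw [← mul_assoc, ← Real.exp_add]; simp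
    _ ≤ _ := mul_le_mul_of_nonneg_left hle (Real.exp_pos _).le

theorem ST6 : St_ST6 := by
  intro u b hu hb
  have hkey := main6 u b hu hb
  have hconv : ∀ c : ℝ, 0 ≤ c → ∫⁻ t : ℝ, ENNReal.ofReal (st1H_stein1x u 2 (t ^ 2 + c) * st1g_stein1x t) = ENNReal.ofReal (st1P_stein1x u c 2) := by
    intro c hc
    unfold st1P_stein1x
    rw [ofReal_integral_eq_lintegral_ofReal (st1_intH_stein1x u c hu hc 2)]
    refine Filter.Eventually.of_forall fun t => ?_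
    have hg : 0 ≤ st1g_stein1x t := by unfold st1g_stein1x; positivity
    exact mul_nonneg (st1H_nonneg_stein1x u 2 (t ^ 2 + c) (by positivity)) hg
  have e0 : ∀ t : ℝ, Real.sqrt (t ^ 2 + u + b) * Real.sqrt ((t ^ 2 + b) ^ 5) * gt t
      = st1H_stein1x u 2 (t ^ 2 + b) * st1g_stein1x t := by
    intro t
    unfold st1H_stein1x gt st1g_stein1x
    have h2 : Real.sqrt ((t ^ 2 + b) ^ (2 * 2 + 1)) = (t ^ 2 + b) ^ 2 * Real.sqrt (t ^ 2 + b) := by
      rw [pow_succ, pow_mul', Real.sqrt_mul (by positivity), Real.sqrt_sq (by positivity)]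
    have h1 : 5 = 2 * 2 + 1 := rfl
    rw [h1, h2, show t ^ 2 + u + b = t ^ 2 + b + u by ring]
    ring
  have e1 : ∀ t : ℝ, Real.sqrt (t ^ 2 + u) * |t| ^ (6 - 1) * gt t
      = st1H_stein1x u 2 (t ^ 2 + 0) * st1g_stein1x t := by
    intro t
    unfold st1H_stein1x gt st1g_stein1x
    have h1 : 6 - 1 = 2 * 2 + 1 := rfl
    have h3 : |t| ^ (2 * 2 + 1) = (t ^ 2) ^ 2 * |t| := by
      rw [pow_succ |t|, pow_mul, sq_abs]
    rw [h1, add_zero, h3, Real.sqrt_sq_eq_abs]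
    ring
  unfold Psi
  simp_rw [e0, e1]
  rw [hconv b hb, hconv 0 le_rfl, ← ENNReal.ofReal_mul (Real.exp_pos _).le]
  exact ENNReal.ofReal_le_ofReal hkey

end Pool.Agent.W191.ST
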